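import Pool.Agent.Y48.EGB.Moves

/-!
# The kernel of `y_ij ↦ x_i ^ a x_j ^ b`, `a < b`, is finitely generated up to symmetry
-/

set_option autoImplicit false

namespace Pool.Agent.Y48.EGB

open MvPolynomial Pool.Agent.H503R3.EGB

/-- the polynomial `s ^ a t ^ b` -/
noncomputable def fab (a b : ℕ) : MvPolynomial (Fin 2) ℂ := X 0 ^ a * X 1 ^ b

theorem phi_X' (a b : ℕ) (e : Idx) : phi (fab a b) (X e) = X (src e) ^ a * X (tgt e) ^ b := by
  simp [phi, fab, src, tgt]

theorem phi_mon' (a b : ℕ) (s : Multiset Idx) :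
    phi (fab a b) (mon s) = ((V a b s).map (X : ℕ → MvPolynomial ℕ ℂ)).prod := by
  have h : ∀ t : Multiset Idx, ((V a b t).map (X : ℕ → MvPolynomial ℕ ℂ)).prod =
      (((t.map src).map (X : ℕ → MvPolynomial ℕ ℂ)).prod) ^ a *
        (((t.map tgt).map (X : ℕ → MvPolynomial ℕ ℂ)).prod) ^ b := by
    intro t
    rw [V, Multiset.map_add, Multiset.prod_add, Multiset.map_nsmul, Multiset.map_nsmul,
      Multiset.prod_nsmul, Multiset.prod_nsmul]
  rw [h]
  induction s using Multiset.induction_on with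
  | empty => simp [mon]
  | cons e s ih =>
    rw [mon_cons, map_mul, ih, phi_X']
    simp only [Multiset.map_cons, Multiset.prod_cons, mul_pow]
    ring

theorem ker_le' (a b : ℕ) (K : Ideal R) (hK : ∀ s t : Multiset Idx, V a b s = V a b t →
    mon s - mon t ∈ K) : kerPhi (fab a b) ≤ K := by
  classical
  let L : MvPolynomial ℕ ℂ →ₗ[ℂ] R ⧸ K := (basisMonomials ℕ ℂ).constr ℂ
    (fun w => if h : ∃ s, V a b s = Finsupp.toMultiset w then Ideal.Quotient.mk K (mon h.choose)
      else 0)
  have hL : L ∘ₗ (phi (fab a b)).toLinearMap = (Ideal.Quotient.mkₐ ℂ K).toLinearMap := by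
    refine (basisMonomials Idx ℂ).ext fun m => ?_
    rw [coe_basisMonomials]
    change L (phi (fab a b) (monomial m 1)) = Ideal.Quotient.mk K (monomial m 1)
    rw [← mon_toMultiset, phi_mon', prod_X]
    set s := Finsupp.toMultiset m
    have h1 : L (monomial (Multiset.toFinsupp (V a b s)) 1) =
        if h : ∃ s', V a b s' = Finsupp.toMultiset (Multiset.toFinsupp (V a b s)) then
          Ideal.Quotient.mk K (mon h.choose) else 0 := by
      have := (basisMonomials ℕ ℂ).constr_basis ℂ
        (fun w => if h : ∃ s, V a b s = Finsupp.toMultiset w then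
          Ideal.Quotient.mk K (mon h.choose) else 0) (Multiset.toFinsupp (V a b s))
      rw [coe_basisMonomials] at this
      exact this
    rw [h1]
    have h2 : ∃ s', V a b s' = Finsupp.toMultiset (Multiset.toFinsupp (V a b s)) :=
      ⟨s, by rw [Multiset.toFinsupp_toMultiset]⟩
    rw [dif_pos h2]
    rw [Ideal.Quotient.mk_eq_mk_iff_sub_mem]
    refine hK _ _ ?_
    rw [h2.choose_spec, Multiset.toFinsupp_toMultiset]
  intro p hp
  have hp' : phi (fab a b) p = 0 := hp
  have h3 := congrArg (fun l => l p) hL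
  simp only [LinearMap.comp_apply, AlgHom.toLinearMap_apply, hp', map_zero] at h3
  have h4 : Ideal.Quotient.mk K p = 0 := h3.symm
  exact Ideal.Quotient.eq_zero_iff_mem.mp h4

/-- small multisets of arcs -/
def Small' (N : ℕ) (s : Multiset Idx) : Prop := ∀ e ∈ s, src e < N ∧ tgt e < N

/-- the finite generating set -/
def F1 (a b D N : ℕ) : Set R :=
  {h | ∃ s t : Multiset Idx, Multiset.card s ≤ D ∧ V a b s = V a b t ∧ Small' N s ∧
    Small' N t ∧ h = mon s - mon t}

theorem finite_small' (D N : ℕ) : {s : Multiset Idx | Small' N s ∧ Multiset.card s ≤ D}.Finite := by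
  classical
  have hA : {e : Idx | src e < N ∧ tgt e < N}.Finite := by
    refine Set.Finite.of_finite_image (f := Subtype.val) ?_ Subtype.val_injective.injOn
    refine Set.Finite.subset ((Set.finite_Iio N).prod (Set.finite_Iio N)) ?_
    rintro _ ⟨e, he, rfl⟩
    exact ⟨he.1, he.2⟩
  refine Set.Finite.subset (Set.finite_Iic (D • hA.toFinset.val)) ?_
  rintro s ⟨hs, hc⟩
  rw [Set.mem_Iic, Multiset.le_iff_count]
  intro e
  rw [Multiset.count_nsmul]
  by_cases he : e ∈ s
  · have h1 : e ∈ hA.toFinset.val := by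
      rw [Finset.mem_val, Set.Finite.mem_toFinset]
      exact hs e he
    have h2 : 1 ≤ Multiset.count e hA.toFinset.val := Multiset.count_pos.mpr h1
    have h3 := Multiset.count_le_card e s
    have h4 : D ≤ D * Multiset.count e hA.toFinset.val := Nat.le_mul_of_pos_right D h2
    omega
  · rw [Multiset.count_eq_zero.mpr he]
    exact Nat.zero_le _

theorem finite_F1 {a b : ℕ} (hab : 0 < a + b) (D N : ℕ) : (F1 a b D N).Finite := by
  classical
  refine Set.Finite.subset (((finite_small' D N).prod (finite_small' D N)).image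
    (fun p => mon p.1 - mon p.2)) ?_
  rintro h ⟨s, t, hc, hW, hs, ht, rfl⟩
  refine ⟨(s, t), ⟨⟨hs, hc⟩, ht, ?_⟩, rfl⟩
  rw [← card_eq_of_V hab hW]
  exact hc

theorem V_map (a b : ℕ) (ρ : ℕ → ℕ) (hρ : Function.Injective ρ) (s : Multiset Idx) :
    V a b (s.map (mapIdx ρ hρ)) = (V a b s).map ρ := by
  simp only [V, Multiset.map_map, Multiset.map_add, Multiset.map_nsmul]
  rfl

theorem mon_sub_mem_ker' {a b : ℕ} {s t : Multiset Idx} (h : V a b s = V a b t) :
    mon s - mon t ∈ kerPhi (fab a b) := by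
  change phi (fab a b) (mon s - mon t) = 0
  rw [map_sub, phi_mon', phi_mon', h, sub_self]

theorem mem_V {a b : ℕ} (ha : 1 ≤ a) (hb : 1 ≤ b) {s : Multiset Idx} {e : Idx} (he : e ∈ s) :
    src e ∈ V a b s ∧ tgt e ∈ V a b s := by
  classical
  rw [← Multiset.count_pos, ← Multiset.count_pos, count_V, count_V]
  have h1 : 0 < (s.map src).count (src e) := Multiset.count_pos.mpr (Multiset.mem_map_of_mem _ he)
  have h2 : 0 < (s.map tgt).count (tgt e) := Multiset.count_pos.mpr (Multiset.mem_map_of_mem _ he)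
  constructor
  · have := Nat.mul_pos (show 0 < a from ha) h1
    omega
  · have := Nat.mul_pos (show 0 < b from hb) h2
    omega

/-- `ker (y_ij ↦ x_i ^ a x_j ^ b)` is finitely generated up to symmetry, once monomials with the
same image are connected by moves of bounded degree. -/
theorem fg_of {a b D : ℕ} (ha : 1 ≤ a) (hb : 1 ≤ b)
    (hD : ∀ K : Ideal R, (∀ s t : Multiset Idx, Multiset.card s ≤ D → V a b s = V a b t →
      mon s - mon t ∈ K) → ∀ s t : Multiset Idx, V a b s = V a b t → mon s - mon t ∈ K) :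
    FGUpToSymmetry (kerPhi (fab a b)) := by
  classical
  obtain ⟨N, hN⟩ : ∃ N, N = (a + b) * D := ⟨_, rfl⟩
  refine ⟨F1 a b D N, finite_F1 (by omega) D N, ?_, le_antisymm ?_ ?_⟩
  · rintro h ⟨s, t, _, hV, _, _, rfl⟩
    exact mon_sub_mem_ker' hV
  · refine ker_le' _ _ _ (hD _ fun s t hs hV => ?_)
    obtain ⟨σ, hσ, hσV⟩ := exists_perm N (V a b s).toFinset (by
      refine le_trans (Multiset.toFinset_card_le _) ?_
      rw [card_V, hN]
      exact Nat.mul_le_mul_left _ hs)
    refine Ideal.subset_span ⟨σ⁻¹, ?_, mon (s.map (mapIdx σ σ.injective)) -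
      mon (t.map (mapIdx σ σ.injective)), ⟨_, _, ?_, ?_, ?_, ?_, rfl⟩, ?_⟩
    · refine Set.Finite.subset hσ ?_
      intro i hi hcon
      apply hi
      have : σ i = i := hcon
      rw [Equiv.Perm.inv_eq_iff_eq, this]
    · rwa [Multiset.card_map]
    · rw [V_map, V_map, hV]
    · intro e he
      obtain ⟨e', he', rfl⟩ := Multiset.mem_map.mp he
      have h := mem_V ha hb he'
      exact ⟨hσV _ (Multiset.mem_toFinset.mpr h.1), hσV _ (Multiset.mem_toFinset.mpr h.2)⟩
    · intro e he
      obtain ⟨e', he', rfl⟩ := Multiset.mem_map.mp he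
      rw [hV] at hσV
      have h := mem_V ha hb he'
      exact ⟨hσV _ (Multiset.mem_toFinset.mpr h.1), hσV _ (Multiset.mem_toFinset.mpr h.2)⟩
    · have key : ∀ u : Multiset Idx,
          act (σ⁻¹ : Equiv.Perm ℕ) (Equiv.injective _) (mon (u.map (mapIdx σ σ.injective))) =
            mon u := by
        intro u
        rw [act_mon, Multiset.map_map]
        congr 1
        conv_rhs => rw [← Multiset.map_id u]
        refine Multiset.map_congr rfl fun e _ => ?_
        apply Subtype.ext
        simp [mapIdx]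
      rw [map_sub, key, key]
  · rw [Ideal.span_le]
    rintro h ⟨σ, _, g, ⟨s, t, _, hV, _, _, rfl⟩, rfl⟩
    exact act_mem_ker (fab a b) _ _ (mon_sub_mem_ker' hV)

/-- `ker (y_ij ↦ x_i ^ a x_j ^ b)` is finitely generated up to symmetry for `1 ≤ a < b`. -/
theorem fg_lt {a b : ℕ} (ha : 1 ≤ a) (hab : a < b) : FGUpToSymmetry (kerPhi (fab a b)) := by
  obtain ⟨g, a', b', hg, hco, rfl, rfl⟩ := Nat.exists_coprime' (Nat.gcd_pos_of_pos_left b ha)
  have hg' : 1 ≤ g := hg
  have ha' : 1 ≤ a' := by
    rcases Nat.eq_zero_or_pos a' with h | h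
    · subst h; simp at ha
    · exact h
  have hab' : a' < b' := lt_of_mul_lt_mul_right hab (Nat.zero_le g)
  refine fg_of (D := 2 * b') ha (by omega) ?_
  intro K hK s t hV
  rw [mul_comm a' g, mul_comm b' g, V_scale_iff hg'] at hV
  refine connected' K ha' hab' hco (fun s t hs h => hK s t hs ?_) s t hV
  rw [mul_comm a' g, mul_comm b' g, V_scale_iff hg']
  exact h

end Pool.Agent.Y48.EGB
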