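import Pool.Agent.H503R3.EGB.Minimal

/-!
# Moves between monomials with the same image under `y_ij ↦ x_i ^ a x_j ^ b`
-/

set_option autoImplicit false

namespace Pool.Agent.Y48.EGB

open MvPolynomial Pool.Agent.H503R3.EGB

/-- the exponent (as a multiset) of the image of a monomial under `φ_f`, `f = s ^ a t ^ b` -/
def V (a b : ℕ) (s : Multiset Idx) : Multiset ℕ := a • s.map src + b • s.map tgt

theorem count_V (a b : ℕ) (s : Multiset Idx) (w : ℕ) :
    (V a b s).count w = a * (s.map src).count w + b * (s.map tgt).count w := by
  simp only [V, Multiset.count_add, Multiset.count_nsmul]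

theorem V_add (a b : ℕ) (s t : Multiset Idx) : V a b (s + t) = V a b s + V a b t := by
  ext w
  simp only [count_V, Multiset.count_add, Multiset.map_add]
  ring

theorem card_V (a b : ℕ) (s : Multiset Idx) :
    Multiset.card (V a b s) = (a + b) * Multiset.card s := by
  simp only [V, Multiset.card_add, Multiset.card_nsmul, Multiset.card_map]
  ring

theorem card_eq_of_V {a b : ℕ} (hab : 0 < a + b) {s t : Multiset Idx} (h : V a b s = V a b t) :
    Multiset.card s = Multiset.card t := by
  have := congrArg Multiset.card h
  rw [card_V, card_V] at this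
  exact Nat.eq_of_mul_eq_mul_left hab this

theorem V_of_eq (a b : ℕ) {s t : Multiset Idx} (h1 : s.map src = t.map src)
    (h2 : s.map tgt = t.map tgt) : V a b s = V a b t := by
  rw [V, V, h1, h2]

theorem src_eq_of_V {a b : ℕ} (ha : 1 ≤ a) {s t : Multiset Idx} (hV : V a b s = V a b t)
    (h : s.map tgt = t.map tgt) : s.map src = t.map src := by
  ext w
  have h1 := congrArg (Multiset.count w) hV
  rw [count_V, count_V, h] at h1
  have h2 : a * Multiset.count w (s.map src) = a * Multiset.count w (t.map src) := by omega
  exact Nat.eq_of_mul_eq_mul_left (by omega) h2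

theorem V_scale (g a b : ℕ) (s : Multiset Idx) : V (g * a) (g * b) s = g • V a b s := by
  ext w
  rw [Multiset.count_nsmul, count_V, count_V]
  ring

theorem V_scale_iff {g : ℕ} (hg : 1 ≤ g) (a b : ℕ) (s t : Multiset Idx) :
    V (g * a) (g * b) s = V (g * a) (g * b) t ↔ V a b s = V a b t := by
  constructor
  · intro h
    ext w
    have h1 := congrArg (Multiset.count w) h
    rw [V_scale, V_scale, Multiset.count_nsmul, Multiset.count_nsmul] at h1
    exact Nat.eq_of_mul_eq_mul_left (by omega) h1
  · intro h
    rw [V_scale, V_scale, h]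

/-- arithmetic of a single vertex -/
theorem arith {a b o i o' i' : ℕ} (hco : Nat.Coprime a b) (ha : 1 ≤ a)
    (h : a * o + b * i = a * o' + b * i') (hlt : i' < i) :
    ∃ x, 1 ≤ x ∧ i = i' + a * x ∧ o' = o + b * x := by
  obtain ⟨d, hd⟩ : ∃ d, i = i' + d := ⟨i - i', by omega⟩
  have hle : o ≤ o' := by
    by_contra hcon
    push Not at hcon
    have h1 : a * o' ≤ a * o := Nat.mul_le_mul_left a hcon.le
    have h2 : b * i' ≤ b * i := Nat.mul_le_mul_left b hlt.le
    have h3 : a * o' < a * o := Nat.mul_lt_mul_of_pos_left hcon (by omega)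
    omega
  obtain ⟨c, hc⟩ : ∃ c, o' = o + c := ⟨o' - o, by omega⟩
  subst hd hc
  have h1 : b * d = a * c := by nlinarith
  have h2 : a ∣ d := by
    have h3 : a ∣ b * d := ⟨c, h1⟩
    exact hco.dvd_of_dvd_mul_left h3
  obtain ⟨x, rfl⟩ := h2
  refine ⟨x, ?_, rfl, ?_⟩
  · rcases Nat.eq_zero_or_pos x with h0 | h0
    · subst h0; simp at hlt
    · exact h0
  · have h3 : a * c = a * (b * x) := by rw [← h1]; ring
    have h4 := Nat.eq_of_mul_eq_mul_left (by omega : 0 < a) h3
    rw [h4]

theorem exists_sub (s : Multiset Idx) (p : Idx → Prop) [DecidablePred p] (k : ℕ)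
    (hk : k ≤ s.countP p) : ∃ n, n ≤ s ∧ Multiset.card n = k ∧ ∀ e ∈ n, p e := by
  rw [Multiset.countP_eq_card_filter] at hk
  have h1 : 0 < Multiset.card (Multiset.powersetCard k (s.filter p)) := by
    rw [Multiset.card_powersetCard]
    exact Nat.choose_pos hk
  obtain ⟨n, hn⟩ := Multiset.card_pos_iff_exists_mem.mp h1
  rw [Multiset.mem_powersetCard] at hn
  refine ⟨n, le_trans hn.1 (Multiset.filter_le _ _), hn.2, fun e he => ?_⟩
  exact (Multiset.mem_filter.mp (Multiset.mem_of_le hn.1 he)).2

theorem countP_map' (s : Multiset Idx) (f : Idx → ℕ) (u : ℕ) :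
    (s.map f).count u = s.countP (fun e => f e = u) := by
  rw [Multiset.count_map, Multiset.countP_eq_card_filter]
  congr 1
  refine Multiset.filter_congr fun e _ => ?_
  exact eq_comm

/-- choose a small piece of `s` with the required properties -/
theorem choose_piece' {a b c : ℕ} {s : Multiset Idx} {u v : ℕ}
    (hu : a ≤ (s.map tgt).count u) (hv : b ≤ (s.map src).count v)
    (ht : (s.map src).count u + (s.map tgt).count u + c ≤ Multiset.card s) :
    ∃ n, n ≤ s ∧ Multiset.card n ≤ a + b + c ∧ a ≤ (n.map tgt).count u ∧
      b ≤ (n.map src).count v ∧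
      (n.map src).count u + (n.map tgt).count u + c ≤ Multiset.card n := by
  classical
  rw [countP_map'] at hu hv
  rw [touch_eq] at ht
  have hsplit : ∀ t : Multiset Idx, t.countP (fun e => src e = u ∨ tgt e = u) +
      t.countP (fun e => ¬ (src e = u ∨ tgt e = u)) = Multiset.card t := by
    intro t
    rw [Multiset.countP_eq_card_filter, Multiset.countP_eq_card_filter, ← Multiset.card_add,
      Multiset.filter_add_not]
  obtain ⟨n1, h11, h12, h13⟩ := exists_sub s _ a hu
  obtain ⟨n2, h21, h22, h23⟩ := exists_sub s _ b hv
  obtain ⟨n3, h31, h32, h33⟩ := exists_sub s (fun e => ¬ (src e = u ∨ tgt e = u)) c (by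
    have := hsplit s
    omega)
  refine ⟨n1 ∪ (n2 ∪ n3), Multiset.union_le h11 (Multiset.union_le h21 h31), ?_, ?_, ?_, ?_⟩
  · have h1 := Multiset.card_le_card (Multiset.union_le_add n1 (n2 ∪ n3))
    have h2 := Multiset.card_le_card (Multiset.union_le_add n2 n3)
    rw [Multiset.card_add] at h1 h2
    omega
  · rw [countP_map']
    have h1 : Multiset.countP (fun e => tgt e = u) n1 = a := by
      rw [← h12, Multiset.countP_eq_card]
      exact h13
    have h2 := Multiset.countP_le_of_le (fun e => tgt e = u)
      (Multiset.le_union_left : n1 ≤ n1 ∪ (n2 ∪ n3))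
    omega
  · rw [countP_map']
    have h1 : Multiset.countP (fun e => src e = v) n2 = b := by
      rw [← h22, Multiset.countP_eq_card]
      exact h23
    have h2 := Multiset.countP_le_of_le (fun e => src e = v)
      (le_trans (Multiset.le_union_left : n2 ≤ n2 ∪ n3)
        (Multiset.le_union_right : n2 ∪ n3 ≤ n1 ∪ (n2 ∪ n3)))
    omega
  · rw [touch_eq]
    have h1 : Multiset.countP (fun e => ¬ (src e = u ∨ tgt e = u)) n3 = c := by
      rw [← h32, Multiset.countP_eq_card]
      exact h33
    have h2 := Multiset.countP_le_of_le (fun e => ¬ (src e = u ∨ tgt e = u))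
      (le_trans (Multiset.le_union_right : n3 ≤ n2 ∪ n3)
        (Multiset.le_union_right : n2 ∪ n3 ≤ n1 ∪ (n2 ∪ n3)))
    have h3 := hsplit (n1 ∪ (n2 ∪ n3))
    omega

section

variable (K : Ideal R)

theorem move' {n n' q : Multiset Idx} (h : mon n - mon n' ∈ K) :
    mon (n + q) - mon (n' + q) ∈ K := by
  rw [mon_add, mon_add, ← sub_mul]
  exact K.mul_mem_right _ h

/-- Step 1: we can adjust the in-degrees. -/
theorem step_one' {a b : ℕ} (ha : 1 ≤ a) (hab : a < b) (hco : Nat.Coprime a b)
    (hK : ∀ s t : Multiset Idx, Multiset.card s ≤ 2 * b → V a b s = V a b t →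
      mon s - mon t ∈ K) (N : ℕ) : ∀ (s t : Multiset Idx), V a b s = V a b t →
    Multiset.card (s.map tgt - t.map tgt) = N →
    ∃ s', mon s - mon s' ∈ K ∧ V a b s' = V a b t ∧ s'.map tgt = t.map tgt := by
  classical
  induction N using Nat.strong_induction_on with
  | _ N ih =>
    intro s t hV hN
    have hc := card_eq_of_V (by omega) hV
    rcases Nat.eq_zero_or_pos N with h0 | hpos
    · refine ⟨s, by simp, hV, ?_⟩
      have h1 : s.map tgt ≤ t.map tgt := by
        rw [h0, Multiset.card_eq_zero] at hN
        exact tsub_eq_zero_iff_le.mp hN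
      refine Multiset.eq_of_le_of_card_le h1 ?_
      rw [Multiset.card_map, Multiset.card_map, hc]
    obtain ⟨u, hu⟩ : ∃ u, u ∈ s.map tgt - t.map tgt := by
      apply Multiset.card_pos_iff_exists_mem.mp
      omega
    have hu' : (t.map tgt).count u < (s.map tgt).count u := by
      have := Multiset.count_pos.mpr hu
      rw [Multiset.count_sub] at this
      omega
    obtain ⟨v, hv⟩ : ∃ v, (s.map tgt).count v < (t.map tgt).count v := by
      by_contra hcon
      push Not at hcon
      have h1 : t.map tgt ≤ s.map tgt := Multiset.le_iff_count.mpr hcon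
      have h2 : t.map tgt = s.map tgt := Multiset.eq_of_le_of_card_le h1 (by
        rw [Multiset.card_map, Multiset.card_map, hc])
      rw [h2] at hu'
      exact lt_irrefl _ hu'
    have huv : u ≠ v := by
      rintro rfl
      omega
    have hVu := congrArg (Multiset.count u) hV
    have hVv := congrArg (Multiset.count v) hV
    rw [count_V, count_V] at hVu hVv
    obtain ⟨x, hx1, hx2, hx3⟩ := arith hco ha hVu hu'
    obtain ⟨y, hy1, hy2, hy3⟩ := arith hco ha hVv.symm hv
    have htu := touch_le u t
    have hbx : b ≤ b * x := Nat.le_mul_of_pos_right b hx1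
    have hax : a ≤ a * x := Nat.le_mul_of_pos_right a hx1
    have hby : b ≤ b * y := Nat.le_mul_of_pos_right b hy1
    have hay : a ≤ a * y := Nat.le_mul_of_pos_right a hy1
    have hdiff : (b - a) + a * x ≤ b * x := by
      obtain ⟨d, rfl⟩ : ∃ d, b = a + d := ⟨b - a, by omega⟩
      have : d ≤ d * x := Nat.le_mul_of_pos_right d hx1
      rw [add_mul]
      omega
    obtain ⟨n, hns, hn4, hnu, hnv, hnt⟩ := choose_piece' (a := a) (b := b) (c := b - a)
      (s := s) (u := u) (v := v) (by omega) (by omega) (by omega)
    obtain ⟨q, rfl⟩ := Multiset.le_iff_exists_add.mp hns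
    have hnvle : Multiset.replicate b v ≤ n.map src :=
      Multiset.le_count_iff_replicate_le.mp hnv
    have hnule : Multiset.replicate a u ≤ n.map tgt :=
      Multiset.le_count_iff_replicate_le.mp hnu
    obtain ⟨A, hA⟩ := Multiset.le_iff_exists_add.mp hnvle
    obtain ⟨B, hB⟩ := Multiset.le_iff_exists_add.mp hnule
    have hcA : Multiset.card n = b + Multiset.card A := by
      have := congrArg Multiset.card hA
      rw [Multiset.card_map, Multiset.card_add, Multiset.card_replicate] at this
      exact this
    have hcB : Multiset.card n = a + Multiset.card B := by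
      have := congrArg Multiset.card hB
      rw [Multiset.card_map, Multiset.card_add, Multiset.card_replicate] at this
      exact this
    obtain ⟨n', hn'1, hn'2⟩ := realize (A + Multiset.replicate b u)
      (B + Multiset.replicate a v) (by
        rw [Multiset.card_add, Multiset.card_add, Multiset.card_replicate,
          Multiset.card_replicate]
        omega) (by
      intro w
      have h1 := touch_le w n
      rw [hA, hB] at h1
      simp only [Multiset.count_add, Multiset.card_add, Multiset.card_replicate] at h1 ⊢
      by_cases hwu : w = u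
      · subst hwu
        rw [hA, hB] at hnt
        simp only [Multiset.count_add] at hnt
        have c1 : ∀ k, Multiset.count w (Multiset.replicate k w) = k :=
          fun k => Multiset.count_replicate_self w k
        have c2 : ∀ k, Multiset.count w (Multiset.replicate k v) = 0 := by
          intro k
          rw [Multiset.count_replicate, if_neg (Ne.symm huv)]
        rw [c1, c2] at hnt h1 ⊢
        omega
      · have c2 : ∀ k, Multiset.count w (Multiset.replicate k u) = 0 := by
          intro k
          rw [Multiset.count_replicate, if_neg (Ne.symm hwu)]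
        rw [c2] at h1 ⊢
        by_cases hwv : w = v
        · subst hwv
          have c1 : ∀ k, Multiset.count w (Multiset.replicate k w) = k :=
            fun k => Multiset.count_replicate_self w k
          rw [c1] at h1 ⊢
          omega
        · have c3 : ∀ k, Multiset.count w (Multiset.replicate k v) = 0 := by
            intro k
            rw [Multiset.count_replicate, if_neg (Ne.symm hwv)]
          rw [c3] at h1 ⊢
          omega)
    have hVn : V a b n = V a b n' := by
      ext w
      rw [count_V, count_V, hn'1, hn'2, hA, hB]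
      simp only [Multiset.count_add, Multiset.count_replicate]
      split_ifs <;> ring
    have hmv := move' K (q := q) (hK n n' (by omega) hVn)
    have hV' : V a b (n' + q) = V a b t := by
      rw [← hV, V_add, V_add, hVn]
    have hN' : Multiset.card ((n' + q).map tgt - t.map tgt) < N := by
      have : (n' + q).map tgt - t.map tgt + Multiset.replicate a u =
          (n + q).map tgt - t.map tgt := by
        ext w
        rw [Multiset.count_add, Multiset.count_sub, Multiset.count_sub, Multiset.map_add,
          Multiset.map_add, Multiset.count_add, Multiset.count_add, hn'2, hB, Multiset.count_add,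
          Multiset.count_add, Multiset.count_replicate, Multiset.count_replicate]
        rw [Multiset.map_add, Multiset.count_add, hB, Multiset.count_add,
          Multiset.count_replicate] at hx2 hy2
        by_cases hwu : w = u
        · subst hwu
          rw [if_pos rfl] at *
          rw [if_neg (Ne.symm huv)] at *
          omega
        · rw [if_neg (Ne.symm hwu)]
          by_cases hwv : w = v
          · subst hwv
            rw [if_pos rfl]
            rw [if_neg huv] at *
            omega
          · rw [if_neg (Ne.symm hwv)]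
            omega
      have h2 := congrArg Multiset.card this
      rw [hN, Multiset.card_add, Multiset.card_replicate] at h2
      omega
    obtain ⟨s', hs'1, hs'2, hs'3⟩ := ih _ hN' (n' + q) t hV' rfl
    exact ⟨s', rel_trans K hmv hs'1, hs'2, hs'3⟩

/-- Step 2: monomials with the same in- and out-degrees can be made to share an arc. -/
theorem step_two' (hK : ∀ s t : Multiset Idx, Multiset.card s ≤ 3 → s.map src = t.map src →
      s.map tgt = t.map tgt → mon s - mon t ∈ K)
    {s t : Multiset Idx} (h1 : s.map src = t.map src) (h2 : s.map tgt = t.map tgt)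
    {e : Idx} (he : e ∈ t) :
    ∃ s', mon s - mon s' ∈ K ∧ s'.map src = s.map src ∧ s'.map tgt = s.map tgt ∧ e ∈ s' := by
  classical
  by_cases hes : e ∈ s
  · exact ⟨s, by simp, rfl, rfl, hes⟩
  have hij : src e ≠ tgt e := e.2
  obtain ⟨e1, he1, he1'⟩ : ∃ e1 ∈ s, src e1 = src e := by
    have : src e ∈ s.map src := by rw [h1]; exact Multiset.mem_map_of_mem _ he
    simpa using Multiset.mem_map.mp this
  obtain ⟨q1, hq1⟩ := Multiset.exists_cons_of_mem he1
  obtain ⟨e2, he2, he2'⟩ : ∃ e2 ∈ s, tgt e2 = tgt e := by
    have : tgt e ∈ s.map tgt := by rw [h2]; exact Multiset.mem_map_of_mem _ he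
    simpa using Multiset.mem_map.mp this
  have h12 : e2 ≠ e1 := by
    rintro rfl
    apply hes
    have : e2 = e := Subtype.ext (Prod.ext he1' he2')
    rwa [← this]
  have he2q : e2 ∈ q1 := by
    rw [hq1] at he2
    rcases Multiset.mem_cons.mp he2 with h | h
    · exact absurd h h12
    · exact h
  obtain ⟨q2, hq2⟩ := Multiset.exists_cons_of_mem he2q
  have h1ne : src e1 ≠ tgt e1 := e1.2
  have h2ne : src e2 ≠ tgt e2 := e2.2
  by_cases hkl : src e2 = tgt e1
  · -- need a third arc
    have hlt : (s.map src).count (tgt e1) + (s.map tgt).count (tgt e1) < Multiset.card s := by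
      have hc : Multiset.card s = Multiset.card t := by
        have := congrArg Multiset.card h1
        simpa using this
      rw [h1, h2, hc]
      refine touch_lt_of_mem he ?_ ?_
      · rw [← he1']; exact h1ne
      · rw [← he2', ← hkl]; exact h2ne.symm
    obtain ⟨e3, he3, h31, h32⟩ := exists_not_touch hlt
    have he3q : e3 ∈ q2 := by
      rw [hq1, hq2] at he3
      rcases Multiset.mem_cons.mp he3 with h | h
      · exact absurd (h ▸ rfl) h32
      rcases Multiset.mem_cons.mp h with h | h
      · exact absurd (h ▸ hkl) h31
      · exact h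
    obtain ⟨q3, hq3⟩ := Multiset.exists_cons_of_mem he3q
    let a : Idx := ⟨(tgt e1, tgt e3), fun h => h32 h.symm⟩
    let b : Idx := ⟨(src e3, tgt e1), h31⟩
    have ha1 : src a = tgt e1 := rfl
    have ha2 : tgt a = tgt e3 := rfl
    have hb1 : src b = src e3 := rfl
    have hb2 : tgt b = tgt e1 := rfl
    have hs : s = ({e1, e2, e3} : Multiset Idx) + q3 := by
      rw [hq1, hq2, hq3]
      simp [Multiset.insert_eq_cons, Multiset.cons_add, Multiset.singleton_add]
    have hsrc : ({e1, e2, e3} : Multiset Idx).map src = ({e, a, b} : Multiset Idx).map src := by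
      ext w
      simp only [Multiset.insert_eq_cons, Multiset.map_cons, Multiset.map_singleton,
        Multiset.count_cons, Multiset.count_singleton]
      rw [ha1, hb1, he1', hkl]
    have htgt : ({e1, e2, e3} : Multiset Idx).map tgt = ({e, a, b} : Multiset Idx).map tgt := by
      ext w
      simp only [Multiset.insert_eq_cons, Multiset.map_cons, Multiset.map_singleton,
        Multiset.count_cons, Multiset.count_singleton]
      rw [ha2, hb2, he2']
      omega
    refine ⟨({e, a, b} : Multiset Idx) + q3, ?_, ?_, ?_, ?_⟩
    · rw [hs]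
      exact move' K (hK _ _ (by simp) hsrc htgt)
    · rw [hs, Multiset.map_add, Multiset.map_add, hsrc]
    · rw [hs, Multiset.map_add, Multiset.map_add, htgt]
    · simp
  · let a : Idx := ⟨(src e2, tgt e1), hkl⟩
    have ha1 : src a = src e2 := rfl
    have ha2 : tgt a = tgt e1 := rfl
    have hs : s = ({e1, e2} : Multiset Idx) + q2 := by
      rw [hq1, hq2]; simp [Multiset.insert_eq_cons, Multiset.cons_add, Multiset.singleton_add]
    have hsrc : ({e1, e2} : Multiset Idx).map src = ({e, a} : Multiset Idx).map src := by
      ext w
      simp only [Multiset.insert_eq_cons, Multiset.map_cons, Multiset.map_singleton,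
        Multiset.count_cons, Multiset.count_singleton]
      rw [ha1, he1']
    have htgt : ({e1, e2} : Multiset Idx).map tgt = ({e, a} : Multiset Idx).map tgt := by
      ext w
      simp only [Multiset.insert_eq_cons, Multiset.map_cons, Multiset.map_singleton,
        Multiset.count_cons, Multiset.count_singleton]
      rw [ha2, he2']
      omega
    refine ⟨({e, a} : Multiset Idx) + q2, ?_, ?_, ?_, ?_⟩
    · rw [hs]
      exact move' K (hK _ _ (by simp) hsrc htgt)
    · rw [hs, Multiset.map_add, Multiset.map_add, hsrc]
    · rw [hs, Multiset.map_add, Multiset.map_add, htgt]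
    · simp

/-- Two monomials with the same in- and out-degrees are equivalent modulo `K`. -/
theorem connected_deg (hK : ∀ s t : Multiset Idx, Multiset.card s ≤ 3 → s.map src = t.map src →
      s.map tgt = t.map tgt → mon s - mon t ∈ K) (k : ℕ) :
    ∀ (s t : Multiset Idx), Multiset.card t = k → s.map src = t.map src →
      s.map tgt = t.map tgt → mon s - mon t ∈ K := by
  classical
  induction k with
  | zero =>
    intro s t ht h1 h2
    have hs : Multiset.card s = Multiset.card t := by
      have := congrArg Multiset.card h1
      simpa using this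
    exact hK s t (by omega) h1 h2
  | succ k ih =>
    intro s t ht h1 h2
    obtain ⟨e, he⟩ : ∃ e, e ∈ t := by
      apply Multiset.card_pos_iff_exists_mem.mp
      omega
    obtain ⟨s2, h5, h6, h7, h8⟩ := step_two' K hK h1 h2 he
    obtain ⟨q, hq⟩ := Multiset.exists_cons_of_mem h8
    obtain ⟨r, hr⟩ := Multiset.exists_cons_of_mem he
    have hqr1 : q.map src = r.map src := by
      have h9 := h6.trans h1
      rw [hq, hr, Multiset.map_cons, Multiset.map_cons] at h9
      exact (Multiset.cons_inj_right _).mp h9
    have hqr2 : q.map tgt = r.map tgt := by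
      have h9 := h7.trans h2
      rw [hq, hr, Multiset.map_cons, Multiset.map_cons] at h9
      exact (Multiset.cons_inj_right _).mp h9
    have hcr : Multiset.card r = k := by
      rw [hr, Multiset.card_cons] at ht
      omega
    have h9 := rel_cons K e (ih q r hcr hqr1 hqr2)
    rw [← hq, ← hr] at h9
    exact rel_trans K h5 h9

/-- Any two monomials with the same image are equivalent modulo `K`. -/
theorem connected' {a b : ℕ} (ha : 1 ≤ a) (hab : a < b) (hco : Nat.Coprime a b)
    (hK : ∀ s t : Multiset Idx, Multiset.card s ≤ 2 * b → V a b s = V a b t →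
      mon s - mon t ∈ K) (s t : Multiset Idx) (hV : V a b s = V a b t) :
    mon s - mon t ∈ K := by
  obtain ⟨s1, h1, h2, h3⟩ := step_one' K ha hab hco hK _ s t hV rfl
  refine rel_trans K h1 (connected_deg K (fun s t hs h4 h5 => ?_) _ s1 t rfl
    (src_eq_of_V ha h2 h3) h3)
  exact hK s t (by omega) (V_of_eq a b h4 h5)

end

end Pool.Agent.Y48.EGB
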