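import Pool.Agent.Y48.EGB.NoEGB

/-!
# Exchanging the two indices of `y_ij`
-/

set_option autoImplicit false

namespace Pool.Agent.Y48.EGB

open MvPolynomial Pool.Agent.H503R3.EGB

/-- the exchange of the two indices -/
def sw : Idx ≃ Idx where
  toFun p := ⟨(p.1.2, p.1.1), fun h => p.2 h.symm⟩
  invFun p := ⟨(p.1.2, p.1.1), fun h => p.2 h.symm⟩
  left_inv := by rintro ⟨⟨a, b⟩, h⟩; rfl
  right_inv := by rintro ⟨⟨a, b⟩, h⟩; rfl

theorem sw_sw (e : Idx) : sw (sw e) = e := by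
  rcases e with ⟨⟨a, b⟩, h⟩; rfl

theorem sw_mapIdx (ρ : ℕ → ℕ) (hρ : Function.Injective ρ) (e : Idx) :
    sw (mapIdx ρ hρ e) = mapIdx ρ hρ (sw e) := rfl

/-- the exchange on polynomials -/
noncomputable def S : R →ₐ[ℂ] R := rename sw

/-- the exchange on monomials -/
noncomputable def sm (m : Idx →₀ ℕ) : Idx →₀ ℕ := m.mapDomain sw

theorem S_S (p : R) : S (S p) = p := by
  rw [S, rename_rename]
  have : (sw ∘ sw : Idx → Idx) = id := by
    funext e
    exact sw_sw e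
  rw [this, rename_id]
  rfl

theorem sm_sm (m : Idx →₀ ℕ) : sm (sm m) = m := by
  rw [sm, sm, ← Finsupp.mapDomain_comp]
  have : (sw ∘ sw : Idx → Idx) = id := by
    funext e
    exact sw_sw e
  rw [this, Finsupp.mapDomain_id]

theorem sm_add (m m' : Idx →₀ ℕ) : sm (m + m') = sm m + sm m' := Finsupp.mapDomain_add

theorem sm_injective : Function.Injective sm := by
  intro a b h
  rw [← sm_sm a, h, sm_sm]

theorem sm_actMon (ρ : ℕ → ℕ) (hρ : Function.Injective ρ) (m : Idx →₀ ℕ) :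
    sm (actMon ρ hρ m) = actMon ρ hρ (sm m) := by
  rw [sm, sm, actMon, actMon, ← Finsupp.mapDomain_comp, ← Finsupp.mapDomain_comp]
  rfl

theorem S_act (ρ : ℕ → ℕ) (hρ : Function.Injective ρ) (p : R) :
    S (act ρ hρ p) = act ρ hρ (S p) := by
  rw [S, act, rename_rename, rename_rename]
  rfl

theorem S_monomial (m : Idx →₀ ℕ) : S (monomial m 1) = monomial (sm m) 1 := by
  rw [S, rename_monomial]
  rfl

theorem coeff_S (m : Idx →₀ ℕ) (p : R) : coeff m (S p) = coeff (sm m) p := by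
  conv_lhs => rw [← sm_sm m]
  rw [S, sm, coeff_rename_mapDomain _ sw.injective]

theorem mem_support_S (m : Idx →₀ ℕ) (p : R) : m ∈ (S p).support ↔ sm m ∈ p.support := by
  rw [mem_support_iff, mem_support_iff, coeff_S]

theorem phi_S (a b : ℕ) (p : R) : phi (fab a b) (S p) = phi (fab b a) p := by
  have : (phi (fab a b)).comp S = phi (fab b a) := by
    refine MvPolynomial.algHom_ext fun e => ?_
    rw [AlgHom.comp_apply, S, rename_X, phi_X', phi_X', mul_comm]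
    rfl
  exact congrArg (fun g => g p) this

theorem S_mem {a b : ℕ} {p : R} (hp : p ∈ kerPhi (fab b a)) : S p ∈ kerPhi (fab a b) := by
  have hp' : phi (fab b a) p = 0 := hp
  change phi (fab a b) (S p) = 0
  rw [phi_S, hp']

theorem map_ker (a b : ℕ) : (kerPhi (fab a b)).map S = kerPhi (fab b a) := by
  apply le_antisymm
  · rw [Ideal.map_le_iff_le_comap]
    intro p hp
    rw [Ideal.mem_comap]
    exact S_mem (a := b) (b := a) hp
  · intro p hp
    have h1 : S p ∈ kerPhi (fab a b) := S_mem (a := a) (b := b) hp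
    have h2 := Ideal.mem_map_of_mem S h1
    rwa [S_S] at h2

theorem fg_swap {a b : ℕ} (h : FGUpToSymmetry (kerPhi (fab a b))) :
    FGUpToSymmetry (kerPhi (fab b a)) := by
  obtain ⟨F, hF, hFI, hspan⟩ := h
  refine ⟨S '' F, hF.image _, ?_, ?_⟩
  · rintro _ ⟨p, hp, rfl⟩
    exact S_mem (hFI hp)
  · rw [← map_ker a b, hspan, Ideal.map_span]
    congr 1
    ext h
    constructor
    · rintro ⟨_, ⟨σ, hσ, g, hg, rfl⟩, rfl⟩
      exact ⟨σ, hσ, S g, ⟨g, hg, rfl⟩, S_act _ _ _⟩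
    · rintro ⟨σ, hσ, _, ⟨g, hg, rfl⟩, rfl⟩
      exact ⟨_, ⟨σ, hσ, g, hg, rfl⟩, S_act _ _ _⟩

/-- the exchanged order -/
def leS (le : (Idx →₀ ℕ) → (Idx →₀ ℕ) → Prop) (a b : Idx →₀ ℕ) : Prop := le (sm a) (sm b)

theorem isMonomialOrder_leS {le : (Idx →₀ ℕ) → (Idx →₀ ℕ) → Prop} (h : IsMonomialOrder le) :
    IsMonomialOrder (leS le) where
  total a b := h.total _ _
  antisymm a b h1 h2 := sm_injective (h.antisymm _ _ h1 h2)
  trans a b c h1 h2 := h.trans _ _ _ h1 h2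
  exists_min T hT := by
    obtain ⟨a, ⟨a', ha', rfl⟩, hmin⟩ := h.exists_min (sm '' T) (hT.image _)
    exact ⟨a', ha', fun b hb => hmin _ ⟨b, hb, rfl⟩⟩
  mul a b c hab := by
    change le _ _
    rw [sm_add, sm_add]
    exact h.mul _ _ _ hab

theorem respects_leS {le : (Idx →₀ ℕ) → (Idx →₀ ℕ) → Prop} (h : RespectsInc le) :
    RespectsInc (leS le) := by
  intro ρ hρ a b hab
  change le _ _
  rw [sm_actMon, sm_actMon]
  exact h ρ hρ _ _ hab

theorem isLM_S (le : (Idx →₀ ℕ) → (Idx →₀ ℕ) → Prop) (p : R) (m : Idx →₀ ℕ) :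
    IsLM le (S p) m ↔ IsLM (leS le) p (sm m) := by
  constructor
  · rintro ⟨h1, h2⟩
    refine ⟨(mem_support_S m p).mp h1, fun m' hm' => ?_⟩
    change le _ _
    rw [sm_sm]
    refine h2 _ ((mem_support_S _ p).mpr ?_)
    rwa [sm_sm]
  · rintro ⟨h1, h2⟩
    refine ⟨(mem_support_S m p).mpr h1, fun m' hm' => ?_⟩
    have h3 := h2 (sm m') ((mem_support_S m' p).mp hm')
    change le _ _ at h3
    rwa [sm_sm, sm_sm] at h3

theorem map_initialIdeal (le : (Idx →₀ ℕ) → (Idx →₀ ℕ) → Prop) (a b : ℕ) :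
    (initialIdeal (leS le) (kerPhi (fab b a))).map S = initialIdeal le (kerPhi (fab a b)) := by
  rw [initialIdeal, initialIdeal, Ideal.map_span]
  congr 1
  ext h
  constructor
  · rintro ⟨_, ⟨g, hg, m, hm, rfl⟩, rfl⟩
    refine ⟨S g, S_mem hg, sm m, ?_, S_monomial m⟩
    rw [isLM_S, sm_sm]
    exact hm
  · rintro ⟨g, hg, m, hm, rfl⟩
    refine ⟨monomial (sm m) 1, ⟨S g, S_mem hg, sm m, ?_, rfl⟩, ?_⟩
    · rw [← isLM_S, S_S]
      exact hm
    · rw [S_monomial, sm_sm]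

theorem egb_swap {le : (Idx →₀ ℕ) → (Idx →₀ ℕ) → Prop} {a b : ℕ} {G : Set R}
    (h : IsEGB (leS le) (kerPhi (fab b a)) G) : IsEGB le (kerPhi (fab a b)) (S '' G) := by
  refine ⟨?_, ?_⟩
  · rintro _ ⟨p, hp, rfl⟩
    exact S_mem (h.1 hp)
  · rw [← map_initialIdeal, ← h.2, Ideal.map_span]
    congr 1
    ext x
    constructor
    · rintro ⟨ρ, hρ, _, ⟨g, hg, rfl⟩, m, hm, rfl⟩
      refine ⟨monomial (sm m) 1, ⟨ρ, hρ, g, hg, sm m, ?_, rfl⟩, ?_⟩
      · rw [← isLM_S, S_act]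
        exact hm
      · rw [S_monomial, sm_sm]
    · rintro ⟨_, ⟨ρ, hρ, g, hg, m, hm, rfl⟩, rfl⟩
      refine ⟨ρ, hρ, S g, ⟨g, hg, rfl⟩, sm m, ?_, S_monomial m⟩
      rw [← S_act, isLM_S, sm_sm]
      exact hm

end Pool.Agent.Y48.EGB
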